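import Mathlib
import Pool.Prelude.Def_F_56b3cb1b

/-! Blow-up reduction for the Erdos jump problem at r^-r. -/

set_option autoImplicit false
open Filter Asymptotics

namespace Pool.H3.Jump

open Finset

/-- number of `r`-subsets of `S` mapped bijectively onto `e` by `φ` -/
lemma count {α V : Type*} [DecidableEq α] [DecidableEq V] (φ : α → V) (S : Finset α)
    (e : Finset V) (r : ℕ) (he : e.card = r) :
    (S.powerset.filter (fun e' => e'.card = r ∧ e'.image φ = e)).card
      = ∏ v ∈ e, (S.filter (fun i => φ i = v)).card := by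
  rw [← Finset.card_pi]
  symm
  apply Finset.card_bij (fun f _ => e.attach.image (fun v => f v.1 v.2))
  · intro f hf
    rw [Finset.mem_pi] at hf
    have h1 : ∀ v (hv : v ∈ e), f v hv ∈ S ∧ φ (f v hv) = v := by
      intro v hv
      simpa using hf v hv
    have hinj : Function.Injective (fun v : {x // x ∈ e} => f v.1 v.2) := by
      intro v w h
      have h2 := congrArg φ h
      simp only [(h1 _ _).2] at h2
      exact Subtype.ext h2
    simp only [Finset.mem_filter, Finset.mem_powerset]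
    refine ⟨?_, ?_, ?_⟩
    · intro i hi
      simp only [Finset.mem_image, Finset.mem_attach, true_and, Subtype.exists] at hi
      obtain ⟨v, hv, rfl⟩ := hi
      exact (h1 v hv).1
    · rw [Finset.card_image_of_injective _ hinj, Finset.card_attach, he]
    · ext v
      simp only [Finset.mem_image, Finset.mem_attach, true_and, Subtype.exists]
      constructor
      · rintro ⟨i, ⟨w, hw, rfl⟩, rfl⟩
        rw [(h1 w hw).2]; exact hw
      · intro hv
        exact ⟨f v hv, ⟨v, hv, rfl⟩, (h1 v hv).2⟩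
  · intro f hf g hg hfg
    rw [Finset.mem_pi] at hf hg
    have h1 : ∀ v (hv : v ∈ e), φ (f v hv) = v := by
      intro v hv
      have := hf v hv
      simp only [Finset.mem_filter] at this
      exact this.2
    have h2 : ∀ v (hv : v ∈ e), φ (g v hv) = v := by
      intro v hv
      have := hg v hv
      simp only [Finset.mem_filter] at this
      exact this.2
    funext v hv
    have h3 : f v hv ∈ e.attach.image (fun v => g v.1 v.2) := by
      have hfg' : e.attach.image (fun v => f v.1 v.2) = e.attach.image (fun v => g v.1 v.2) := hfg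
      rw [← hfg']
      simp only [Finset.mem_image, Finset.mem_attach, true_and, Subtype.exists]
      exact ⟨v, hv, rfl⟩
    simp only [Finset.mem_image, Finset.mem_attach, true_and, Subtype.exists] at h3
    obtain ⟨w, hw, hgw⟩ := h3
    have h4 : w = v := by
      have := congrArg φ hgw
      rw [h2, h1] at this
      exact this
    subst h4
    exact hgw.symm
  · intro e' he'
    simp only [Finset.mem_filter, Finset.mem_powerset] at he'
    obtain ⟨hS, hcard, himg⟩ := he'
    have h1 : ∀ v, v ∈ e → ∃ i, i ∈ e' ∧ φ i = v := by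
      intro v hv
      rw [← himg] at hv
      simpa using hv
    choose f hf using h1
    refine ⟨f, ?_, ?_⟩
    · rw [Finset.mem_pi]
      intro v hv
      simp only [Finset.mem_filter]
      exact ⟨hS (hf v hv).1, (hf v hv).2⟩
    · apply Finset.eq_of_subset_of_card_le
      · intro i hi
        simp only [Finset.mem_image, Finset.mem_attach, true_and, Subtype.exists] at hi
        obtain ⟨v, hv, rfl⟩ := hi
        exact (hf v hv).1
      · have hinj : Function.Injective (fun v : {x // x ∈ e} => f v.1 v.2) := by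
          intro v w h
          have h2 := congrArg φ h
          simp only [(hf _ _).2] at h2
          exact Subtype.ext h2
        rw [Finset.card_image_of_injective _ hinj, Finset.card_attach, he, hcard]

/-- the blow-up of `E` along `φ : α → V` -/
def blow {α V : Type*} [Fintype α] [DecidableEq α] [DecidableEq V] (E : Finset (Finset V)) (r : ℕ)
    (φ : α → V) : Finset (Finset α) :=
  Finset.univ.filter (fun e' => e'.card = r ∧ e'.image φ ∈ E)

lemma blow_induce_card {α V : Type*} [Fintype α] [DecidableEq α] [DecidableEq V]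
    (E : Finset (Finset V)) (r : ℕ) (hE : ∀ e ∈ E, e.card = r) (φ : α → V) (S : Finset α) :
    ((blow E r φ).filter (· ⊆ S)).card
      = ∑ e ∈ E, ∏ v ∈ e, (S.filter (fun i => φ i = v)).card := by
  have h1 : (blow E r φ).filter (· ⊆ S)
      = E.biUnion (fun e => S.powerset.filter (fun e' => e'.card = r ∧ e'.image φ = e)) := by
    ext e'
    simp only [blow, Finset.mem_filter, Finset.mem_univ, true_and, Finset.mem_biUnion,
      Finset.mem_powerset]
    constructor
    · rintro ⟨⟨h1, h2⟩, h3⟩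
      exact ⟨_, h2, h3, h1, rfl⟩
    · rintro ⟨e, he, h3, h1, h2⟩
      exact ⟨⟨h1, h2 ▸ he⟩, h3⟩
  rw [h1, Finset.card_biUnion]
  · apply Finset.sum_congr rfl
    intro e he
    exact count φ S e r (hE e he)
  · intro e _ e2 _ hne
    rw [Function.onFun, Finset.disjoint_left]
    intro e' h1 h2
    simp only [Finset.mem_filter] at h1 h2
    exact hne (h1.2.2.symm.trans h2.2.2)

/-- a map `Fin n → V` with prescribed lower bounds for the fibres -/
lemma exists_map {V : Type*} [Fintype V] [DecidableEq V] [Nonempty V] (n : ℕ) (k : V → ℕ)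
    (hk : ∑ v, k v ≤ n) : ∃ φ : Fin n → V, ∀ v, k v ≤ (Finset.univ.filter (fun i => φ i = v)).card := by
  classical
  have hcard : Fintype.card (Σ v, Fin (k v)) ≤ Fintype.card (Fin n) := by
    simpa using hk
  obtain ⟨f⟩ := Function.Embedding.nonempty_of_card_le hcard
  let φ : Fin n → V := fun i => if h : ∃ p, f p = i then (Classical.choose h).1 else Classical.arbitrary V
  have hφ : ∀ p, φ (f p) = p.1 := by
    intro p
    have h : ∃ q, f q = f p := ⟨p, rfl⟩
    have h2 : φ (f p) = (Classical.choose h).1 := dif_pos h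
    rw [h2]
    have h3 := Classical.choose_spec h
    rw [f.injective h3]
  refine ⟨φ, fun v => ?_⟩
  have h1 : (Finset.univ.image (fun j : Fin (k v) => f ⟨v, j⟩)) ⊆ Finset.univ.filter (fun i => φ i = v) := by
    intro i hi
    simp only [Finset.mem_image, Finset.mem_univ, true_and] at hi
    obtain ⟨j, rfl⟩ := hi
    simp only [Finset.mem_filter, Finset.mem_univ, true_and]
    exact hφ ⟨v, j⟩
  calc k v = (Finset.univ.image (fun j : Fin (k v) => f ⟨v, j⟩)).card := by
        rw [Finset.card_image_of_injective]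
        · simp
        · intro a b h
          have := f.injective h
          simpa using this
    _ ≤ _ := Finset.card_le_card h1

/-- `Lag E L`: the Lagrangian of `E` is at most `L`. -/
def LagLE {V : Type*} [Fintype V] (E : Finset (Finset V)) (L : ℝ) : Prop :=
  ∀ y : V → ℝ, (∀ v, 0 ≤ y v) → ∑ v, y v = 1 → ∑ e ∈ E, ∏ v ∈ e, y v ≤ L

/-- The blow-up reduction: if some fixed `r ≥ 3` has finite `r`-graphs with Lagrangian
larger than `r⁻ʳ` but arbitrarily close to it, the frozen negation holds. -/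
theorem reduction (r : ℕ) (hr : 3 ≤ r)
    (H : ∀ c : ℝ, (r : ℝ)⁻¹ ^ r < c → ∃ (V : Type) (_ : Fintype V) (_ : DecidableEq V)
      (E : Finset (Finset V)), (∀ e ∈ E, e.card = r) ∧
      (∃ x : V → ℝ, (∀ v, 0 ≤ x v) ∧ ∑ v, x v = 1 ∧ (r : ℝ)⁻¹ ^ r < ∑ e ∈ E, ∏ v ∈ e, x v) ∧
      ∃ L : ℝ, L < c ∧ LagLE E L) :
    ¬ (∀ r : ℕ, 3 ≤ r → ∃ c : ℝ, (r : ℝ)⁻¹ ^ r < c ∧ ∀ ε : ℝ, 0 < ε → ∃ m : ℕ → ℕ,
      Tendsto m atTop atTop ∧ ∀ᶠ n : ℕ in atTop, ∀ H : Finset (Finset (Fin n)), H.IsUniform r →
      (1 + ε) * ((n : ℝ) / r) ^ r ≤ H.card → ∃ S : Finset (Fin n), S.card = m n ∧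
      c * (S.card : ℝ) ^ r ≤ (H.hypergraphInduce S).card) := by
  intro hmain
  obtain ⟨c, hc, hmain⟩ := hmain r hr
  obtain ⟨V, _, _, E, hE, ⟨x, hx0, hx1, hxE⟩, L, hL, hLag⟩ := H c hc
  have hVne : Nonempty V := by
    by_contra hcon
    rw [not_nonempty_iff] at hcon
    simp at hx1
  have hr0 : (0 : ℝ) < r := by positivity
  set A : ℝ := ∑ e ∈ E, ∏ v ∈ e, x v with hA
  have hrr : 0 < (r : ℝ)⁻¹ ^ r := by positivity
  -- choose ε
  obtain ⟨ε, hε, hεA⟩ : ∃ ε : ℝ, 0 < ε ∧ (1 + ε) * (r : ℝ)⁻¹ ^ r < A := by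
    refine ⟨(A - (r : ℝ)⁻¹ ^ r) / (2 * (r : ℝ)⁻¹ ^ r), by
      apply div_pos (by linarith) (by positivity), ?_⟩
    have : (1 + (A - (r : ℝ)⁻¹ ^ r) / (2 * (r : ℝ)⁻¹ ^ r)) * (r : ℝ)⁻¹ ^ r
        = (r : ℝ)⁻¹ ^ r + (A - (r : ℝ)⁻¹ ^ r) / 2 := by
      field_simp
    rw [this]
    linarith
  obtain ⟨m, hm, hev⟩ := hmain ε hε
  -- asymptotics of floors
  have hlim : Tendsto (fun n : ℕ => ∑ e ∈ E, ∏ v ∈ e, ((⌊x v * n⌋₊ : ℝ) / n)) atTop (nhds A) := by
    apply tendsto_finsetSum
    intro e _
    apply tendsto_finsetProd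
    intro v _
    exact tendsto_nat_floor_mul_div_atTop (hx0 v) |>.comp tendsto_natCast_atTop_atTop
  have h1 : ∀ᶠ n : ℕ in atTop, (1 + ε) * (r : ℝ)⁻¹ ^ r < ∑ e ∈ E, ∏ v ∈ e, ((⌊x v * n⌋₊ : ℝ) / n) :=
    hlim.eventually (lt_mem_nhds hεA)
  have h2 : ∀ᶠ n : ℕ in atTop, 1 ≤ m n := hm.eventually (eventually_ge_atTop 1)
  obtain ⟨n, ⟨hn1, hn2⟩, hn3, hn4⟩ := ((hev.and h1).and (h2.and (eventually_ge_atTop 1))).exists
  have hn0 : (0 : ℝ) < n := by exact_mod_cast hn4
  have hsum : ∑ v, ⌊x v * n⌋₊ ≤ n := by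
    have : ((∑ v, ⌊x v * n⌋₊ : ℕ) : ℝ) ≤ n := by
      push_cast
      calc ∑ v, (⌊x v * n⌋₊ : ℝ) ≤ ∑ v, x v * n := by
            apply Finset.sum_le_sum
            intro v _
            exact Nat.floor_le (mul_nonneg (hx0 v) hn0.le)
        _ = n := by rw [← Finset.sum_mul, hx1, one_mul]
    exact_mod_cast this
  obtain ⟨φ, hφ⟩ := exists_map n (fun v => ⌊x v * n⌋₊) hsum
  set G : Finset (Finset (Fin n)) := blow E r φ with hG
  have hGu : G.IsUniform r := by
    intro e he
    simp only [hG, blow, Finset.mem_filter] at he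
    exact he.2.1
  have hGcard : (G.card : ℝ) = ∑ e ∈ E, ∏ v ∈ e, ((Finset.univ.filter (fun i => φ i = v)).card : ℝ) := by
    have := blow_induce_card E r hE φ Finset.univ
    have h3 : (blow E r φ).filter (· ⊆ Finset.univ) = blow E r φ := by
      apply Finset.filter_true_of_mem
      intro e _
      exact Finset.subset_univ e
    rw [h3] at this
    rw [hG, this]
    push_cast
    rfl
  have hGlarge : (1 + ε) * ((n : ℝ) / r) ^ r ≤ G.card := by
    have h4 : ∑ e ∈ E, ∏ v ∈ e, (⌊x v * n⌋₊ : ℝ) ≤ G.card := by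
      rw [hGcard]
      apply Finset.sum_le_sum
      intro e _
      apply Finset.prod_le_prod
      · intro v _; positivity
      · intro v _
        exact_mod_cast hφ v
    have h5 : ∑ e ∈ E, ∏ v ∈ e, (⌊x v * n⌋₊ : ℝ)
        = (n : ℝ) ^ r * ∑ e ∈ E, ∏ v ∈ e, ((⌊x v * n⌋₊ : ℝ) / n) := by
      rw [Finset.mul_sum]
      apply Finset.sum_congr rfl
      intro e he
      rw [Finset.prod_div_distrib, Finset.prod_const, hE e he, mul_div_cancel₀]
      positivity
    rw [h5] at h4
    calc (1 + ε) * ((n : ℝ) / r) ^ r = (n : ℝ) ^ r * ((1 + ε) * (r : ℝ)⁻¹ ^ r) := by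
          rw [div_eq_mul_inv, mul_pow]; ring
      _ ≤ (n : ℝ) ^ r * ∑ e ∈ E, ∏ v ∈ e, ((⌊x v * n⌋₊ : ℝ) / n) := by
          apply mul_le_mul_of_nonneg_left hn2.le (by positivity)
      _ ≤ G.card := h4
  obtain ⟨S, hS, hcS⟩ := hn1 G hGu hGlarge
  have hS0 : (0 : ℝ) < S.card := by
    rw [hS]; exact_mod_cast hn3
  -- induced count
  have h6 : ((G.hypergraphInduce S).card : ℝ)
      = ∑ e ∈ E, ∏ v ∈ e, ((S.filter (fun i => φ i = v)).card : ℝ) := by
    have := blow_induce_card E r hE φ S
    rw [Finset.hypergraphInduce, hG, this]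
    push_cast
    rfl
  have h7 := hLag (fun v => ((S.filter (fun i => φ i = v)).card : ℝ) / S.card)
    (fun v => by positivity) (by
      rw [← Finset.sum_div]
      have : ∑ v, ((S.filter (fun i => φ i = v)).card : ℝ) = S.card := by
        have h8 := Finset.card_eq_sum_card_fiberwise (s := S) (t := Finset.univ) (f := φ)
          (fun i _ => Finset.mem_coe.2 (Finset.mem_univ _))
        rw [h8]
        push_cast
        rfl
      rw [this]
      exact div_self hS0.ne')
  have h8 : ∑ e ∈ E, ∏ v ∈ e, (((S.filter (fun i => φ i = v)).card : ℝ) / S.card)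
      = ((G.hypergraphInduce S).card : ℝ) / (S.card : ℝ) ^ r := by
    rw [h6, Finset.sum_div]
    apply Finset.sum_congr rfl
    intro e he
    rw [Finset.prod_div_distrib, Finset.prod_const, hE e he]
  rw [h8, div_le_iff₀ (by positivity)] at h7
  have h9 : L * (S.card : ℝ) ^ r < c * (S.card : ℝ) ^ r :=
    mul_lt_mul_of_pos_right hL (by positivity)
  linarith

end Pool.H3.Jump
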